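import Pool.Agent.helper78.ED.Fin

/-!
# MP_4467b5_nt (density hypothesis): the number of zeros and their additive energy

`energy Z` is the additive energy of a finite set `Z` of complex numbers: the number of quadruples
of elements of `Z` with `|Im a + Im b - Im c - Im e| ≤ 1`. `mult ρ` is the multiplicity of `ρ` as a
zero of the Riemann zeta function.

The theorem: a finite set `Z` of zeros with `Re ρ ≥ σ` and `0 < Im ρ ≤ T` has at most
`C T ^ ε (T (T + energy Z)) ^ (1 - σ)` elements, counted with multiplicity. So the density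
hypothesis, with its exact exponent `2 (1 - σ)`, holds for every set of zeros whose additive energy
is at most `T ^ (1 + ε)`.
-/

set_option autoImplicit false

open Complex

namespace Pool.Agent.Results.MP_4467b5_nt.EnergyDensity

open Pool.Agent.helper84.DM Pool.Agent.helper78.ED

theorem result (ε : ℝ) (hε : 0 < ε) : ∃ C : ℝ, 0 < C ∧ ∀ T σ : ℝ, 1 ≤ T → 1 / 2 ≤ σ → σ ≤ 1 →
    ∀ Z : Finset ℂ, (∀ ρ ∈ Z, riemannZeta ρ = 0 ∧ σ ≤ ρ.re ∧ 0 < ρ.im ∧ ρ.im ≤ T) →
      ∑ ρ ∈ Z, (mult ρ : ℝ) ≤ C * T ^ ε * (T * (T + (energy Z : ℝ))) ^ (1 - σ) :=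
  final6 ε hε

end Pool.Agent.Results.MP_4467b5_nt.EnergyDensity
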